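import Pool.Agent.ZRT.StmtsB

/-!
# ZRT, row CH3: the short loop at `q` and its lift
-/

set_option autoImplicit false

noncomputable section

open scoped ContDiff Topology RealInnerProductSpace
open Set MeasureTheory

namespace Pool.Agent.ZRT.H91

open Pool.Agent.RF Pool.Agent.MVS

/-- the derivative of `Un` -/
def Vn (u n : E5) (θ : ℝ) : E5 := (-Real.sin θ) • u + Real.cos θ • n

theorem hasDerivAt_Un (u n : E5) (θ : ℝ) : HasDerivAt (Un u n) (Vn u n θ) θ := by
  have h1 := (Real.hasDerivAt_cos θ).smul_const u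
  have h2 := (Real.hasDerivAt_sin θ).smul_const n
  exact h1.add h2

theorem ch3 (xb1 : Xb1Statement) (xpo : XpoStatement) (lex : LexStatement) (lnb : LnbStatement) :
    Ch3Statement := by
  intro G ex p q u n L w C l r r' φ φ' hl hlL hr hφ r0 r1 φ0 φ1 hb
  have hG := C.geo.cyl
  have hsym : G p n u = 0 := by
    rw [hG.metric.symm p C.hp n u]
    exact C.un
  have eUU : ∀ θ, G p (Un u n θ) (Un u n θ) = 1 := by
    intro θ
    simp only [Un, map_add, map_smul, ContinuousLinearMap.add_apply,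
      ContinuousLinearMap.smul_apply, smul_eq_mul, C.uu, C.nn, C.un, hsym]
    nlinarith [Real.sin_sq_add_cos_sq θ]
  have eVV : ∀ θ, G p (Vn u n θ) (Vn u n θ) = 1 := by
    intro θ
    simp only [Vn, map_add, map_smul, ContinuousLinearMap.add_apply,
      ContinuousLinearMap.smul_apply, smul_eq_mul, C.uu, C.nn, C.un, hsym]
    nlinarith [Real.sin_sq_add_cos_sq θ]
  have eUV : ∀ θ, G p (Un u n θ) (Vn u n θ) = 0 := by
    intro θ
    simp only [Un, Vn, map_add, map_smul, ContinuousLinearMap.add_apply,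
      ContinuousLinearMap.smul_apply, smul_eq_mul, C.uu, C.nn, C.un, hsym]
    ring
  have hsm := (xb1 G ex hG C.geo.exp p C.hp).1
  have hU0 : Un u n 0 = u := by simp [Un]
  have hspeed : Speed G (fun s => ex (p, r s • Un u n (φ s))) l := by
    refine ⟨fun s => dE ex p (r s • Un u n (φ s))
      (r' s • Un u n (φ s) + (r s * φ' s) • Vn u n (φ s)), fun s hs => ⟨?_, ?_⟩⟩
    · have h1 : HasDerivAt (fun s => r s • Un u n (φ s))
          (r' s • Un u n (φ s) + (r s * φ' s) • Vn u n (φ s)) s := by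
        have h2 : HasDerivAt (fun s => Un u n (φ s)) (φ' s • Vn u n (φ s)) s :=
          (hasDerivAt_Un u n (φ s)).scomp s (hφ s)
        have h3 := (hr s).smul h2
        have e : r' s • Un u n (φ s) + (r s * φ' s) • Vn u n (φ s) =
            r s • φ' s • Vn u n (φ s) + r' s • Un u n (φ s) := by
          rw [smul_smul, add_comm]
        rw [e]
        exact h3
      have h4 : HasFDerivAt (fun v : E5 => ex (p, v))
          (fderiv ℝ (fun v : E5 => ex (p, v)) (r s • Un u n (φ s))) (r s • Un u n (φ s)) :=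
        (hsm.differentiable (by simp) _).hasFDerivAt
      exact (h4.comp_hasDerivAt s h1).hasDerivWithinAt
    · have h5 := xpo G ex C.geo p C.hp (Un u n (φ s)) (Vn u n (φ s)) (eUU _) (eVV _) (eUV _)
        (r s) (r' s) (φ' s) (hb s hs).1.le
      have h6 := (hb s hs).2.2.2.2
      unfold nm
      rw [← Real.sqrt_sq hl.le]
      exact Real.sqrt_le_sqrt (h5.trans h6)
  have hc0 : ex (q, (0 : E5)) = (fun s => ex (p, r s • Un u n (φ s))) 0 := by
    change ex (q, (0 : E5)) = ex (p, r 0 • Un u n (φ 0))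
    rw [r0, φ0, hU0, C.start, C.geo.exp.zero q C.hq]
  have hnm0 : nm G q 0 = 0 := by simp [nm]
  obtain ⟨y, hy, hy0, hyb⟩ := lex G ex hG C.geo.sec C.geo.exp q C.hq _ 0 l hl.le hspeed hc0
    (by rw [hnm0, zero_add]; exact hlL.trans C.Lpi)
  have i0 : (0 : ℝ) ∈ Icc (0 : ℝ) 1 := ⟨le_refl _, zero_le_one⟩
  have i1 : (1 : ℝ) ∈ Icc (0 : ℝ) 1 := ⟨zero_le_one, le_refl _⟩
  have hy1 : y 1 = 0 := by
    apply C.min
    · have h := hy.eq 1 i1
      rw [h]
      change ex (p, r 1 • Un u n (φ 1)) = q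
      rw [r1, φ1, C.stop]
    · have h := hyb 1 i1
      rw [hnm0] at h
      linarith
  refine ⟨y, hy, hy0, hy1, fun s hs => ?_⟩
  have a0 := lnb G ex hG C.geo.sec C.geo.exp q C.hq _ y l hl.le hspeed hy 0 i0 s hs
  have a1 := lnb G ex hG C.geo.sec C.geo.exp q C.hq _ y l hl.le hspeed hy 1 i1 s hs
  rw [hy0, hnm0, sub_zero, abs_of_nonneg hs.1] at a0
  rw [hy1, hnm0, abs_sub_comm, abs_of_nonneg (by linarith [hs.2] : (0 : ℝ) ≤ 1 - s)] at a1
  linarith

end Pool.Agent.ZRT.H91
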